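import Pool.Agent.H852R2.TE.S.FIN
import Pool.Agent.Q102.AS.Invol2

/-!
# Random generators of `A_n` together with an arbitrary element of even order with fixed points

MP_75608d_al.  Let `0 < δ` and `0 < η`.  For a fixed number `k ≥ k₀(δ)` of random even permutations
`x_1, …, x_k`, with probability tending to `1`, the following holds for ALL `σ ∈ A_n` and `q ≥ 1`
such that `σ ^ q` is an involution with at least `η n` fixed points, simultaneously:

* `{x_1, …, x_k, σ}` is an expanding generating set with constant `n ^ (-δ) / q ^ 2`;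
* every element of `A_n` is a product of at most `q n (log n) ^ 6` factors
  `x_i^{±1}`, `σ^{±1}`;
* if `σ` is a product of at most `L` factors `x_i^{±1}`, then `{x_1, …, x_k}` itself is an expanding
  generating set with constant `n ^ (-δ) / (q L) ^ 2`.
-/

set_option autoImplicit false

namespace Pool.Agent.Results.MP_75608d_al.EvenOrder
open RC14 Finset Filter Topology

noncomputable section

/-- `g` is a product of at most `D` factors from `{y_i, y_i⁻¹}` -/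
def IsWord {n k : ℕ} (y : Fin k → Alt n) (D : ℝ) (g : Alt n) : Prop :=
  ∃ w : List (Alt n), (w.length : ℝ) ≤ D ∧ (∀ a ∈ w, ∃ i, a = y i ∨ a = (y i)⁻¹) ∧ w.prod = g

/-- the number of fixed points of `g` -/
def fixedPoints {n : ℕ} (g : Alt n) : ℕ := #{p : Fin n | (g : Equiv.Perm (Fin n)) p = p}

/-- the property of `x = (x_1, …, x_k)`; `Fin.cons σ x` is the tuple `(σ, x_1, …, x_k)` -/
def Universal (n : ℕ) {k : ℕ} (δ η : ℝ) (x : Fin k → Alt n) : Prop :=
  ∀ (σ : Alt n) (q : ℕ), 1 ≤ q → orderOf (σ ^ q) = 2 → η * n ≤ fixedPoints (σ ^ q) →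
    Expanding ((n : ℝ) ^ (-δ) / (q : ℝ) ^ 2) (Fin.cons σ x : Fin (k + 1) → Alt n) ∧
    (∀ g : Alt n, IsWord (Fin.cons σ x : Fin (k + 1) → Alt n) (q * n * Real.log n ^ 6) g) ∧
    ∀ L : ℕ, 1 ≤ L → IsWord x L σ → Expanding ((n : ℝ) ^ (-δ) / ((q : ℝ) * L) ^ 2) x

lemma sp_add {n : ℕ} (g : Alt n) : Q102.AS.sp g + fixedPoints g = n := by
  have h := Finset.card_filter_add_card_filter_not (s := (univ : Finset (Fin n)))
    (fun p => (g : Equiv.Perm (Fin n)) p ≠ p)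
  simp only [not_not] at h
  rw [card_univ, Fintype.card_fin] at h
  unfold Q102.AS.sp fixedPoints
  exact h

lemma word_of_Len {n k : ℕ} {y : Fin k → Alt n} {M : ℕ} {D : ℝ} {g : Alt n} (hM : (M : ℝ) ≤ D)
    (h : DM852.Len y M g) : IsWord y D g := by
  obtain ⟨w, hw, e⟩ := h
  refine ⟨w.map (RC852.sl y), ?_, ?_, e⟩
  · rw [List.length_map]
    exact (Nat.cast_le.mpr hw).trans hM
  · intro a ha
    obtain ⟨p, _, rfl⟩ := List.mem_map.mp ha
    refine ⟨p.1, ?_⟩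
    rcases p with ⟨i, s⟩
    cases s <;> simp [RC852.sl]

lemma Len_of_word {n k : ℕ} {y : Fin k → Alt n} {L : ℕ} {g : Alt n}
    (h : IsWord y L g) : DM852.Len y L g := by
  obtain ⟨w, hw, hw2, e⟩ := h
  have hw' : w.length ≤ L := by exact_mod_cast hw
  have key : ∀ w : List (Alt n), (∀ a ∈ w, ∃ i, a = y i ∨ a = (y i)⁻¹) →
      DM852.Len y w.length w.prod := by
    intro w hw
    have h1 := DM852.Len.list (y := y) (L := 1) w (by
      intro a ha
      obtain ⟨i, hi | hi⟩ := hw a ha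
      · rw [hi]; exact DM852.Len.letter i
      · rw [hi]; exact (DM852.Len.letter i).inv)
    rwa [mul_one] at h1
  rw [← e]
  exact (key w hw2).mono hw'

lemma Len_pow {n k : ℕ} {y : Fin k → Alt n} {L q : ℕ} {g : Alt n}
    (h : DM852.Len y L g) : DM852.Len y (q * L) (g ^ q) := by
  have h1 := DM852.Len.list (y := y) (L := L) (List.replicate q g) (by
    intro a ha
    rw [List.eq_of_mem_replicate ha]
    exact h)
  rwa [List.prod_replicate, List.length_replicate] at h1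

lemma good_cons {n m k : ℕ} {c : ℝ} {x : Fin k → Alt n} (h : Good1 n m c x) (σ : Alt n) :
    Good1 n m c (Fin.cons σ x : Fin (k + 1) → Alt n) := by
  intro j hj1 hj2 v hv
  refine (h j hj1 hj2 v hv).trans ?_
  unfold En
  rw [Fin.sum_univ_succ]
  simp only [Fin.cons_zero, Fin.cons_succ]
  have : 0 ≤ ‖repA j n σ v - v‖ ^ 2 := by positivity
  linarith

/-- the deterministic part -/
theorem det (δ η : ℝ) (hδ : 0 < δ) (hη : 0 < η) (hη1 : η ≤ 1) (k : ℕ) (hk : 1 ≤ k) (c : ℝ)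
    (hc : 0 < c) : ∀ᶠ n : ℕ in atTop, ∀ y : Fin k → Alt n,
    Good1 n (TE852.Rr (1 - min (δ / 4) (1 / 2)) n) c y → ∀ (σ : Alt n) (q L : ℕ), 1 ≤ q → 1 ≤ L →
    orderOf (σ ^ q) = 2 → η * n ≤ fixedPoints (σ ^ q) → DM852.Len y L σ →
    Expanding ((n : ℝ) ^ (-δ) / ((q : ℝ) * L) ^ 2) y ∧
      ∀ g : Alt n, ∃ M : ℕ, (M : ℝ) ≤ n * Real.log n ^ 6 * (q * L) ∧ DM852.Len y M g := by
  obtain ⟨δ', hδ'⟩ : ∃ δ' : ℝ, δ' = min (δ / 4) (1 / 2) := ⟨_, rfl⟩
  have hδ'0 : 0 < δ' := by rw [hδ']; exact lt_min (by positivity) (by norm_num)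
  have hδ'1 : δ' ≤ 1 / 2 := by rw [hδ']; exact min_le_right _ _
  have hδ'2 : 4 * δ' ≤ δ := by
    have : δ' ≤ δ / 4 := by rw [hδ']; exact min_le_left _ _
    linarith
  rw [← hδ']
  obtain ⟨R, hR3, hinv⟩ := Q102.AS.inv_word η hη hη1
  obtain ⟨C, hC, hinv⟩ := hinv k hk c hc
  filter_upwards [hinv, Q102.AS.core δ' (1 / 12) hδ'0 hδ'1 (by norm_num) k hk c hc,
    ev_const (1 - δ') (R + 1) (by linarith), ev_loggt (max 1 C),
    ev_log 0 (δ' / 2) 1 (by linarith), eventually_ge_atTop 2] with n h1 h2 h3 h4 h5 h6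
  intro y hy σ q L hq hL hord hfix hlen
  have hnR : (2 : ℝ) ≤ n := by exact_mod_cast h6
  have hn0 : (0 : ℝ) < n := by linarith
  obtain ⟨l, hl⟩ : ∃ l : ℝ, l = Real.log n := ⟨_, rfl⟩
  rw [← hl] at h1 h2 h4 h5 ⊢
  have hl1 : 1 ≤ l := (le_max_left _ _).trans h4
  have hlC : C ≤ l := (le_max_right _ _).trans h4
  have hl0 : 0 < l := by linarith
  have hRm : R ≤ TE852.Rr (1 - δ') n := by
    have h7 : (n : ℝ) ^ (1 - δ') < (TE852.Rr (1 - δ') n : ℝ) + 1 := Nat.lt_floor_add_one _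
    have h8 : (R : ℝ) < TE852.Rr (1 - δ') n := by linarith
    exact_mod_cast h8.le
  have hqL : 1 ≤ q * L := Nat.mul_pos (by omega) (by omega)
  have hsp : (Q102.AS.sp (σ ^ q) : ℝ) ≤ (1 - η) * n := by
    have h7 := sp_add (σ ^ q)
    have h8 : (Q102.AS.sp (σ ^ q) : ℝ) + fixedPoints (σ ^ q) = n := by exact_mod_cast h7
    linarith
  have hne : σ ^ q ≠ 1 := by
    intro h
    rw [h, orderOf_one] at hord
    omega
  have hsq : σ ^ q * σ ^ q = 1 := by
    rw [← pow_two, ← hord]; exact pow_orderOf_eq_one _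
  obtain ⟨σ', L', hσ', hspσ', hL'1, hL'2, hlen'⟩ := h1 y
    (fun j hj1 hj2 => hy j hj1 (hj2.trans hRm)) (σ ^ q) hne hsq hsp (q * L) hqL (Len_pow hlen)
  obtain ⟨h7, h8⟩ := h2 y hy σ' hσ' hspσ' L' hL'1 hlen'
  have hqLr : (1 : ℝ) ≤ (q : ℝ) * L := by exact_mod_cast hqL
  have hL'r : (1 : ℝ) ≤ L' := by exact_mod_cast hL'1
  push_cast at hL'2
  have hL'3 : (L' : ℝ) ≤ l ^ 2 * (q * L) := by
    refine hL'2.trans ?_
    refine mul_le_mul_of_nonneg_right ?_ (by positivity)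
    nlinarith
  constructor
  · refine Q102.AS.expanding_mono h7 ?_
    rw [div_le_div_iff₀ (by positivity) (by positivity)]
    have h9 : (L' : ℝ) ^ 2 ≤ (l ^ 2 * (q * L)) ^ 2 := pow_le_pow_left₀ (by positivity) hL'3 2
    have h10 : l ^ 4 ≤ (n : ℝ) ^ (2 * δ') := by
      have h11 : l ≤ (n : ℝ) ^ (δ' / 2) := by simpa using h5
      calc l ^ 4 ≤ ((n : ℝ) ^ (δ' / 2)) ^ 4 := pow_le_pow_left₀ hl0.le h11 4
        _ = (n : ℝ) ^ (2 * δ') := by
          rw [← Real.rpow_natCast, ← Real.rpow_mul hn0.le]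
          congr 1
          push_cast
          ring
    have h12 : (n : ℝ) ^ (-δ) * (n : ℝ) ^ (2 * δ') ≤ (n : ℝ) ^ (-(2 * δ')) := by
      rw [← Real.rpow_add hn0]
      exact Real.rpow_le_rpow_of_exponent_le (by linarith) (by linarith)
    have h13 : 0 < (n : ℝ) ^ (-δ) := Real.rpow_pos_of_pos hn0 _
    calc (n : ℝ) ^ (-δ) * (L' : ℝ) ^ 2 ≤ (n : ℝ) ^ (-δ) * (l ^ 2 * (q * L)) ^ 2 :=
          mul_le_mul_of_nonneg_left h9 h13.le
      _ = (n : ℝ) ^ (-δ) * l ^ 4 * ((q : ℝ) * L) ^ 2 := by ring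
      _ ≤ (n : ℝ) ^ (-δ) * (n : ℝ) ^ (2 * δ') * ((q : ℝ) * L) ^ 2 :=
          mul_le_mul_of_nonneg_right (mul_le_mul_of_nonneg_left h10 h13.le) (by positivity)
      _ ≤ _ := mul_le_mul_of_nonneg_right h12 (by positivity)
  · intro g
    obtain ⟨M, hM1, hM2⟩ := h8 g
    refine ⟨M, hM1.trans ?_, hM2⟩
    calc (n : ℝ) * l ^ 4 * L' ≤ n * l ^ 4 * (l ^ 2 * (q * L)) :=
          mul_le_mul_of_nonneg_left hL'3 (by positivity)
      _ = _ := by ring

theorem result (δ : ℝ) (hδ : 0 < δ) : ∃ k₀ : ℕ, ∀ k ≥ k₀, ∀ η : ℝ, 0 < η →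
    Tendsto (fun n : ℕ =>
      (Nat.card {x : Fin k → Alt n // Universal n δ η x} : ℝ) /
        (Fintype.card (Alt n) : ℝ) ^ k) atTop (𝓝 1) := by
  obtain ⟨δ', hδ'⟩ : ∃ δ' : ℝ, δ' = min (δ / 4) (1 / 2) := ⟨_, rfl⟩
  have hδ'0 : 0 < δ' := by rw [hδ']; exact lt_min (by positivity) (by norm_num)
  obtain ⟨k0, hk0⟩ := TE852.GAPE (1 - δ') (TE852.TEMAIN (1 - δ') (by linarith))
  refine ⟨k0 + 1, fun k hk η hη => ?_⟩
  obtain ⟨c, hc, B, hB, hgap⟩ := hk0 k (by omega)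
  have hk1 : 1 ≤ k := by omega
  have hη'0 : 0 < min η 1 := lt_min hη one_pos
  -- the good event implies the property
  have hgood : ∀ᶠ n : ℕ in atTop, ∀ x : Fin k → Alt n, Good1 n (TE852.Rr (1 - δ') n) c x →
      Universal n δ η x := by
    filter_upwards [det δ (min η 1) hδ hη'0 (min_le_right _ _) k hk1 c hc,
      det δ (min η 1) hδ hη'0 (min_le_right _ _) (k + 1) (by omega) c hc]
      with n h1 h2 x hx σ q hq hord hfix
    rw [← hδ'] at h1 h2
    have hfix' : min η 1 * n ≤ fixedPoints (σ ^ q) := by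
      refine le_trans ?_ hfix
      exact mul_le_mul_of_nonneg_right (min_le_left _ _) (Nat.cast_nonneg _)
    have hlen : DM852.Len (Fin.cons σ x : Fin (k + 1) → Alt n) 1 σ := by
      have := DM852.Len.letter (y := (Fin.cons σ x : Fin (k + 1) → Alt n)) 0
      simpa using this
    obtain ⟨h3, h4⟩ := h2 (Fin.cons σ x) (good_cons hx σ) σ q 1 hq le_rfl hord hfix' hlen
    refine ⟨?_, ?_, ?_⟩
    · rwa [Nat.cast_one, mul_one] at h3
    · intro g
      obtain ⟨M, hM, hM2⟩ := h4 g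
      refine word_of_Len (hM.trans (le_of_eq ?_)) hM2
      push_cast
      ring
    · intro L hL hL2
      exact (h1 x hx σ q L hq hL hord hfix' (Len_of_word hL2)).1
  have key : ∀ ε0 : ℝ, 0 < ε0 → ∀ᶠ n : ℕ in atTop, (Nat.card {x : Fin k → Alt n //
      ¬ Universal n δ η x} : ℝ) ≤ ε0 * (Fintype.card (Alt n) : ℝ) ^ k := by
    intro ε0 hε0
    have hlim : ∀ᶠ n : ℕ in atTop, B / ε0 ≤ (n : ℝ) ^ (1 : ℝ) := ev_const 1 _ (by norm_num)
    filter_upwards [hgap, hgood, hlim, eventually_ge_atTop 1] with n h1 h2 h3 h4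
    have hn : (0 : ℝ) < n := by exact_mod_cast h4
    rw [Real.rpow_one, div_le_iff₀ hε0] at h3
    have h5 := RC14.card_mono (fun x : Fin k → Alt n => ¬ Universal n δ η x)
      (fun x => ¬ Good1 n (TE852.Rr (1 - δ') n) c x)
      (fun x hx h => hx (h2 x h))
    have h6 : B / (n : ℝ) ≤ ε0 := by
      rw [div_le_iff₀ hn]; linarith
    calc (Nat.card {x : Fin k → Alt n // ¬ Universal n δ η x} : ℝ)
        ≤ (Nat.card {x : Fin k → Alt n // ¬ Good1 n (TE852.Rr (1 - δ') n) c x} : ℝ) := by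
          exact_mod_cast h5
      _ ≤ _ := h1
      _ ≤ ε0 * (Fintype.card (Alt n) : ℝ) ^ k := by gcongr
  have hpos : ∀ n : ℕ, (0 : ℝ) < (Fintype.card (Alt n) : ℝ) := fun n => by
    exact_mod_cast Fintype.card_pos
  refine tendsto_order.mpr ⟨fun b hb => ?_, fun b hb => ?_⟩
  · filter_upwards [key ((1 - b) / 2) (by linarith)] with n hn
    have hA := hpos n
    rw [lt_div_iff₀ (by positivity), RC14.card_compl, Fintype.card_fun, Fintype.card_fin]
    push_cast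
    have hp : (0 : ℝ) < (Fintype.card (Alt n) : ℝ) ^ k := by positivity
    nlinarith
  · refine Eventually.of_forall fun n => lt_of_le_of_lt ?_ hb
    have hA := hpos n
    rw [div_le_one (by positivity), RC14.card_compl, Fintype.card_fun, Fintype.card_fin]
    push_cast
    linarith [Nat.cast_nonneg (α := ℝ) (Nat.card {x : Fin k → Alt n //
      ¬ Universal n δ η x})]

end

end Pool.Agent.Results.MP_75608d_al.EvenOrder
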