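import Pool.Agent.H852R2.TE.S.FIN
import Pool.Agent.Q102.AS.Rep3

/-!
# Random generators of `A_n` and all small representations and all small actions of `A_n`

MP_75608d_al.  Let `0 < δ` and `N = exp (n ^ (1 - δ))`.  For a fixed number `k ≥ k₀(δ)` of random
even permutations `x_1, …, x_k` there is `ε > 0` (depending on `k` and `δ` only) such that, with
probability tending to `1`, simultaneously:

* every unitary representation of `A_n` whose irreducible subspaces have dimension at most `N` has a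
  spectral gap `ε` with respect to `x_1, …, x_k`;
* for every transitive action of `A_n` on a set `X` of at most `N` points the Schreier graph
  of `x_1, …, x_k` on `X` has spectral gap at least `ε` and diameter at most `log |X| / ε`.
-/

set_option autoImplicit false

namespace Pool.Agent.Results.MP_75608d_al.SmallRepresentations
open RC14 Finset Filter Topology
open scoped InnerProductSpace

noncomputable section

/-- the averaging operator of the Schreier graph of `x_1, …, x_k` on `X` -/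
def schreier {n k : ℕ} {X : Type} [MulAction (Alt n) X] (x : Fin k → Alt n)
    (f : X → ℝ) (a : X) : ℝ :=
  (∑ i, (f (x i • a) + f ((x i)⁻¹ • a))) / (2 * k)

/-- the spectral gap `ε` for all unitary representations whose irreducible subspaces have dimension
at most `N`: for `v` orthogonal to the invariant vectors -/
def RepGap (n : ℕ) {k : ℕ} (N ε : ℝ) (x : Fin k → Alt n) : Prop :=
  ∀ (V : Type) [NormedAddCommGroup V] [InnerProductSpace ℂ V] [FiniteDimensional ℂ V]
    (ρ : Alt n →* (V ≃ₗᵢ[ℂ] V)),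
    (∀ W : Submodule ℂ V, Irr ρ W → (Module.finrank ℂ W : ℝ) ≤ N) →
    ∀ v : V, (∀ z : V, (∀ g, ρ g z = z) → ⟪z, v⟫_ℂ = 0) →
      ε * ‖v‖ ^ 2 ≤ (∑ i, ‖ρ (x i) v - v‖ ^ 2) / k

/-- the spectral gap `ε` and the diameter bound `log |X| / ε` for the Schreier graphs of all
transitive actions on at most `N` points -/
def ActionGap (n : ℕ) {k : ℕ} (N ε : ℝ) (x : Fin k → Alt n) : Prop :=
  ∀ (X : Type) [Fintype X] [MulAction (Alt n) X] [MulAction.IsPretransitive (Alt n) X],
    (Fintype.card X : ℝ) ≤ N →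
    (∀ f : X → ℝ, ∑ a, f a = 0 → ∑ a, f a * schreier x f a ≤ (1 - ε) * ∑ a, f a ^ 2) ∧
    ∀ a b : X, ∃ w : List (Alt n), (w.length : ℝ) ≤ Real.log (Fintype.card X) / ε ∧
      (∀ y ∈ w, ∃ i, y = x i ∨ y = (x i)⁻¹) ∧ w.prod • a = b

/-- both properties -/
def SmallGap (n : ℕ) {k : ℕ} (N ε : ℝ) (x : Fin k → Alt n) : Prop :=
  RepGap n N ε x ∧ ActionGap n N ε x

lemma gap_of_good (n m k : ℕ) (hk : 1 ≤ k) (hm : m + 2 ≤ n) (N : ℝ) (hN : N < 2 ^ (m / 3))
    (c : ℝ) (hc : 0 < c) (x : Fin k → Alt n) (h : Good1 n m c x) :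
    SmallGap n N (min c 1 / (24 * k)) x := by
  have hk0 : (0 : ℝ) < k := by exact_mod_cast hk
  have hk1 : (1 : ℝ) ≤ k := by exact_mod_cast hk
  obtain ⟨c', hc'⟩ : ∃ c' : ℝ, c' = min c 1 := ⟨_, rfl⟩
  have hc'0 : 0 < c' := by rw [hc']; exact lt_min hc one_pos
  have hc'1 : c' ≤ 1 := by rw [hc']; exact min_le_right _ _
  have hc'c : c' ≤ c := by rw [hc']; exact min_le_left _ _
  rw [← hc']
  have hNN : ∀ d : ℕ, (d : ℝ) ≤ N → d < 2 ^ (m / 3) := by
    intro d hd
    have : (d : ℝ) < ((2 ^ (m / 3) : ℕ) : ℝ) := by push_cast; exact lt_of_le_of_lt hd hN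
    exact_mod_cast this
  refine ⟨?_, ?_⟩
  · intro V _ _ _ ρ hd v hv
    have h1 := Q102.AS.rep_gap2 n m k hm x c h ρ (fun W hW => hNN _ (hd W hW)) v hv
    unfold En at h1
    rw [le_div_iff₀ hk0]
    have h2 : c' / (24 * k) * ‖v‖ ^ 2 * k = c' / 24 * ‖v‖ ^ 2 := by field_simp
    rw [h2]
    have h3 : c' / 24 * ‖v‖ ^ 2 ≤ c * ‖v‖ ^ 2 :=
      mul_le_mul_of_nonneg_right (by linarith) (by positivity)
    linarith
  · intro X _ _ _ hX
    have hgap : ∀ f : X → ℝ, ∑ a, f a = 0 →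
        ∑ a, f a * Q102.AS.schreier x f a ≤ (1 - c' / (2 * k)) * ∑ a, f a ^ 2 := by
      intro f hf
      refine (Q102.AS.schreier_gap X m k hk hm x c h (hNN _ hX) f hf).trans ?_
      refine mul_le_mul_of_nonneg_right ?_ (sum_nonneg fun a _ => sq_nonneg _)
      have : c' / (2 * (k : ℝ)) ≤ c / (2 * k) := div_le_div_of_nonneg_right hc'c (by positivity)
      linarith
    refine ⟨?_, ?_⟩
    · intro f hf
      refine (hgap f hf).trans ?_
      refine mul_le_mul_of_nonneg_right ?_ (sum_nonneg fun a _ => sq_nonneg _)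
      have : c' / (24 * (k : ℝ)) ≤ c' / (2 * k) := by
        refine div_le_div_of_nonneg_left hc'0.le (by positivity) ?_
        nlinarith
      linarith
    · intro a b
      obtain ⟨w, hw1, hw2, hw3⟩ := Q102.AS.diam_of_gap hk x (c' / (2 * k)) (by positivity) (by
        rw [div_le_one (by positivity)]; linarith) hgap a b
      refine ⟨w, hw1.trans (le_of_eq ?_), hw2, hw3⟩
      field_simp
      ring

theorem result (δ : ℝ) (hδ : 0 < δ) : ∃ k₀ : ℕ, ∀ k ≥ k₀, ∃ ε : ℝ, 0 < ε ∧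
    Tendsto (fun n : ℕ =>
      (Nat.card {x : Fin k → Alt n // SmallGap n (Real.exp ((n : ℝ) ^ (1 - δ))) ε x} : ℝ) /
        (Fintype.card (Alt n) : ℝ) ^ k) atTop (𝓝 1) := by
  obtain ⟨δ', hδ'⟩ : ∃ δ' : ℝ, δ' = min (δ / 2) (1 / 2) := ⟨_, rfl⟩
  have hδ'0 : 0 < δ' := by rw [hδ']; exact lt_min (by positivity) (by norm_num)
  have hδ'1 : δ' ≤ 1 / 2 := by rw [hδ']; exact min_le_right _ _
  have hδ'2 : 2 * δ' ≤ δ := by
    have : δ' ≤ δ / 2 := by rw [hδ']; exact min_le_left _ _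
    linarith
  obtain ⟨k0, hk0⟩ := TE852.GAPE (1 - δ') (TE852.TEMAIN (1 - δ') (by linarith))
  refine ⟨k0 + 1, fun k hk => ?_⟩
  obtain ⟨c, hc, B, hB, hgap⟩ := hk0 k (by omega)
  have hk1 : 1 ≤ k := by omega
  have hkpos : (0 : ℝ) < k := by exact_mod_cast hk1
  refine ⟨min c 1 / (24 * k), by have := lt_min hc one_pos; positivity, ?_⟩
  have hm2 : ∀ᶠ n : ℕ in atTop, TE852.Rr (1 - δ') n + 2 ≤ n := by
    filter_upwards [ev_le (1 - δ') 1 2 (by linarith), eventually_ge_atTop 4] with n h1 h2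
    have h3 : (TE852.Rr (1 - δ') n : ℝ) ≤ (n : ℝ) ^ (1 - δ') := Nat.floor_le (by positivity)
    rw [Real.rpow_one] at h1
    have h4 : (4 : ℝ) ≤ n := by exact_mod_cast h2
    have h5 : (TE852.Rr (1 - δ') n : ℝ) + 2 ≤ n := by linarith
    exact_mod_cast h5
  have hN2 : ∀ᶠ n : ℕ in atTop,
      Real.exp ((n : ℝ) ^ (1 - δ)) < 2 ^ (TE852.Rr (1 - δ') n / 3) := by
    filter_upwards [ev_le (1 - δ) (1 - δ') 12 (by linarith), ev_const (1 - δ') 24 (by linarith)]
      with n h1 h2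
    obtain ⟨m, hm⟩ : ∃ m, m = TE852.Rr (1 - δ') n := ⟨_, rfl⟩
    rw [← hm]
    have h3 : (n : ℝ) ^ (1 - δ') < m + 1 := by rw [hm]; exact Nat.lt_floor_add_one _
    have h4 : (m : ℝ) ≤ 3 * ((m / 3 : ℕ) : ℝ) + 2 := by
      have : m ≤ 3 * (m / 3) + 2 := by omega
      exact_mod_cast this
    have hl := Real.log_two_gt_d9
    rw [← Real.lt_log_iff_exp_lt (by positivity), Real.log_pow]
    nlinarith
  have key : ∀ ε0 : ℝ, 0 < ε0 → ∀ᶠ n : ℕ in atTop, (Nat.card {x : Fin k → Alt n //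
      ¬ SmallGap n (Real.exp ((n : ℝ) ^ (1 - δ))) (min c 1 / (24 * k)) x} : ℝ) ≤
        ε0 * (Fintype.card (Alt n) : ℝ) ^ k := by
    intro ε0 hε0
    have hlim : ∀ᶠ n : ℕ in atTop, B / ε0 ≤ (n : ℝ) ^ (1 : ℝ) := ev_const 1 _ (by norm_num)
    filter_upwards [hgap, hm2, hN2, hlim, eventually_ge_atTop 1] with n h1 h2 h2' h3 h4
    have hn : (0 : ℝ) < n := by exact_mod_cast h4
    rw [Real.rpow_one, div_le_iff₀ hε0] at h3
    have h5 := RC14.card_mono (fun x : Fin k → Alt n =>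
      ¬ SmallGap n (Real.exp ((n : ℝ) ^ (1 - δ))) (min c 1 / (24 * k)) x)
      (fun x => ¬ Good1 n (TE852.Rr (1 - δ') n) c x)
      (fun x hx h => hx (gap_of_good n _ k hk1 h2 _ h2' c hc x h))
    have h6 : B / (n : ℝ) ≤ ε0 := by
      rw [div_le_iff₀ hn]; linarith
    calc (Nat.card {x : Fin k → Alt n //
          ¬ SmallGap n (Real.exp ((n : ℝ) ^ (1 - δ))) (min c 1 / (24 * k)) x} : ℝ)
        ≤ (Nat.card {x : Fin k → Alt n // ¬ Good1 n (TE852.Rr (1 - δ') n) c x} : ℝ) := by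
          exact_mod_cast h5
      _ ≤ _ := h1
      _ ≤ ε0 * (Fintype.card (Alt n) : ℝ) ^ k := by gcongr
  have hpos : ∀ n : ℕ, (0 : ℝ) < (Fintype.card (Alt n) : ℝ) := fun n => by
    exact_mod_cast Fintype.card_pos
  refine tendsto_order.mpr ⟨fun b hb => ?_, fun b hb => ?_⟩
  · filter_upwards [key ((1 - b) / 2) (by linarith)] with n hn
    have hA := hpos n
    rw [lt_div_iff₀ (by positivity), RC14.card_compl, Fintype.card_fun, Fintype.card_fin]
    push_cast
    have hp : (0 : ℝ) < (Fintype.card (Alt n) : ℝ) ^ k := by positivity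
    nlinarith
  · refine Eventually.of_forall fun n => lt_of_le_of_lt ?_ hb
    have hA := hpos n
    rw [div_le_one (by positivity), RC14.card_compl, Fintype.card_fun, Fintype.card_fin]
    push_cast
    linarith [Nat.cast_nonneg (α := ℝ) (Nat.card {x : Fin k → Alt n //
      ¬ SmallGap n (Real.exp ((n : ℝ) ^ (1 - δ))) (min c 1 / (24 * k)) x})]

end

end Pool.Agent.Results.MP_75608d_al.SmallRepresentations
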