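import Pool.Agent.Q102.AS.Any

/-!
# Random generators of `A_n` and one more arbitrary element of small support: spectral gap

MP_75608d_al.  Let `0 < δ` and `0 < η`.  For a fixed number `k ≥ k₀(δ)` of random even permutations
`x_1, …, x_k`, with probability tending to `1`, the following holds for ALL elements `σ ≠ 1` of
`A_n` which move at most `(1/3 - η) n` points, simultaneously:

* `{x_1, …, x_k, σ}` is an expanding generating set with constant `n ^ (-δ)`;
* if `σ` is a product of at most `L` factors `x_i^{±1}`, then `{x_1, …, x_k}` itself is an expanding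
  generating set with constant `n ^ (-δ) / L ^ 2`.

The definitions `moved`, `IsWord` and the proofs are in `Pool.Agent.Q102.AS.Any`.
-/

set_option autoImplicit false

namespace Pool.Agent.Results.MP_75608d_al.SmallSupportGap
open RC14 Finset Filter Topology
open Pool.Agent.Q102.AS.Any (moved IsWord)

/-- the property of `x = (x_1, …, x_k)`; `Fin.cons σ x` is the tuple `(σ, x_1, …, x_k)` -/
def GapWithAny (n : ℕ) {k : ℕ} (δ η : ℝ) (x : Fin k → Alt n) : Prop :=
  ∀ σ : Alt n, σ ≠ 1 → (moved σ : ℝ) ≤ (1 / 3 - η) * n →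
    Expanding ((n : ℝ) ^ (-δ)) (Fin.cons σ x : Fin (k + 1) → Alt n) ∧
    ∀ L : ℕ, 1 ≤ L → IsWord x L σ → Expanding ((n : ℝ) ^ (-δ) / (L : ℝ) ^ 2) x

theorem result (δ : ℝ) (hδ : 0 < δ) : ∃ k₀ : ℕ, ∀ k ≥ k₀, ∀ η : ℝ, 0 < η →
    Tendsto (fun n : ℕ =>
      (Nat.card {x : Fin k → Alt n // GapWithAny n δ η x} : ℝ) /
        (Fintype.card (Alt n) : ℝ) ^ k) atTop (𝓝 1) :=
  Pool.Agent.Q102.AS.Any.gap δ hδ

end Pool.Agent.Results.MP_75608d_al.SmallSupportGap
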